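import Mathlib

/-! Sets of integers whose differences divide their elements. -/

namespace Q68.MR

/-- For every `r` there is a set of `r` positive integers in which every difference of two elements
divides both of them. -/
theorem exists_diff_dvd (r : ℕ) : ∃ s : Finset ℕ, s.card = r ∧ (∀ x ∈ s, 0 < x) ∧
    ∀ x ∈ s, ∀ y ∈ s, x < y → (y - x) ∣ x := by
  induction r with
  | zero => exact ⟨∅, rfl, by simp, by simp⟩
  | succ r ih =>
    obtain ⟨s, hs1, hs2, hs3⟩ := ih
    obtain ⟨M, hM⟩ : ∃ M, ∀ x ∈ s, x ≤ M := ⟨s.sup id, fun x hx => Finset.le_sup (f := id) hx⟩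
    have hd : ∀ k, 0 < k → k ≤ M → k ∣ M.factorial := fun k hk hkM => Nat.dvd_factorial hk hkM
    refine ⟨insert M.factorial (s.image fun x => M.factorial + x), ?_, ?_, ?_⟩
    · rw [Finset.card_insert_of_notMem, Finset.card_image_of_injective, hs1]
      · intro a b hab
        exact Nat.add_left_cancel hab
      · intro h
        obtain ⟨x, hx, hx'⟩ := Finset.mem_image.1 h
        have := hs2 x hx
        omega
    · intro x hx
      rw [Finset.mem_insert, Finset.mem_image] at hx
      have := Nat.factorial_pos M
      rcases hx with rfl | ⟨y, hy, rfl⟩ <;> omega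
    · intro x hx y hy hxy
      rw [Finset.mem_insert, Finset.mem_image] at hx hy
      have hf := Nat.factorial_pos M
      rcases hx with rfl | ⟨a, ha, rfl⟩ <;> rcases hy with rfl | ⟨b, hb, rfl⟩
      · omega
      · rw [Nat.add_sub_cancel_left]
        exact hd b (hs2 b hb) (hM b hb)
      · have := hs2 a ha
        omega
      · have hab : a < b := by omega
        have e : M.factorial + b - (M.factorial + a) = b - a := by omega
        rw [e]
        exact Nat.dvd_add (hd _ (by omega) ((Nat.sub_le _ _).trans (hM b hb))) (hs3 a ha b hb hab)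

end Q68.MR
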