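import Mathlib
import Pool.Agent.Q68.MR.Comb

/-! Isometric actions of the multiplicative semigroup of positive integers. -/

open Filter Topology
open scoped RealInnerProductSpace

namespace Q68.MR

variable {H : Type*} [NormedAddCommGroup H] [InnerProductSpace ℝ H] [CompleteSpace H]

/-- An isometric action of `(ℕ, ·)`. -/
structure IsoAction (U : ℕ → H →ₗᵢ[ℝ] H) : Prop where
  one : ∀ v, U 1 v = v
  mul : ∀ m n, 0 < m → 0 < n → ∀ v, U (m * n) v = U m (U n v)

/-- the closed convex hull of the vectors `U_{q²} f` -/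
def hull (U : ℕ → H →ₗᵢ[ℝ] H) (f : H) : Set H :=
  closure (convexHull ℝ {v | ∃ q : ℕ, 0 < q ∧ v = U (q ^ 2) f})

variable {U : ℕ → H →ₗᵢ[ℝ] H} {f : H}

omit [CompleteSpace H] in
lemma hull_convex : Convex ℝ (hull U f) := (convex_convexHull ℝ _).closure

omit [CompleteSpace H] in
lemma mem_hull (hU : IsoAction U) : f ∈ hull U f :=
  subset_closure (subset_convexHull ℝ _ ⟨1, one_pos, by rw [one_pow, hU.one]⟩)

omit [CompleteSpace H] in
/-- A closed convex condition which holds for the vectors `U_{q²} f` holds on the hull. -/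
lemma hull_induction {p : Set H} (hc : IsClosed p) (hp : Convex ℝ p)
    (h : ∀ q : ℕ, 0 < q → U (q ^ 2) f ∈ p) : hull U f ⊆ p := by
  apply closure_minimal (convexHull_min _ hp) hc
  rintro v ⟨q, hq, rfl⟩
  exact h q hq

omit [CompleteSpace H] in
lemma hull_invariant (hU : IsoAction U) {q : ℕ} (hq : 0 < q) {v : H} (hv : v ∈ hull U f) :
    U (q ^ 2) v ∈ hull U f := by
  have hsub : hull U f ⊆ (U (q ^ 2)) ⁻¹' (hull U f) := by
    apply hull_induction
    · exact isClosed_closure.preimage (U (q ^ 2)).continuous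
    · exact hull_convex.linear_preimage (U (q ^ 2)).toLinearMap
    · intro p hp
      show U (q ^ 2) (U (p ^ 2) f) ∈ hull U f
      rw [← hU.mul _ _ (by positivity) (by positivity), ← mul_pow]
      exact subset_closure (subset_convexHull ℝ _ ⟨q * p, by positivity, rfl⟩)
  exact hsub hv

/-- the element of minimal norm -/
lemma exists_fixed (hU : IsoAction U) : ∃ w ∈ hull U f, (∀ q : ℕ, 0 < q → U (q ^ 2) w = w) ∧
    ‖w‖ ≤ ‖f‖ := by
  have hcomp : IsComplete (hull U f) := isClosed_closure.isComplete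
  obtain ⟨w, hw, hmin⟩ := exists_norm_eq_iInf_of_complete_convex ⟨f, mem_hull hU⟩ hcomp
    hull_convex (0 : H)
  have hineq := (norm_eq_iInf_iff_real_inner_le_zero hull_convex hw).1 hmin
  have hineq' : ∀ z ∈ hull U f, ‖w‖ ^ 2 ≤ ⟪w, z⟫ := by
    intro z hz
    have := hineq z hz
    rw [zero_sub, inner_neg_left, inner_sub_right, real_inner_self_eq_norm_sq] at this
    linarith
  refine ⟨w, hw, fun q hq => ?_, ?_⟩
  · have h1 := hineq' _ (hull_invariant hU hq hw)
    have h2 : ‖U (q ^ 2) w - w‖ ^ 2 ≤ 0 := by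
      rw [norm_sub_sq_real, (U (q ^ 2)).norm_map, real_inner_comm]
      linarith
    have h3 : ‖U (q ^ 2) w - w‖ = 0 := by
      have := norm_nonneg (U (q ^ 2) w - w)
      nlinarith
    exact sub_eq_zero.1 (norm_eq_zero.1 h3)
  · have h1 := hineq' f (mem_hull hU)
    have h2 := real_inner_le_norm w f
    by_cases h0 : ‖w‖ = 0
    · rw [h0]; exact norm_nonneg _
    · have h3 : 0 < ‖w‖ := lt_of_le_of_ne (norm_nonneg _) (Ne.symm h0)
      nlinarith

/-- The data of the abstract theorem. -/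
structure Data (U : ℕ → H →ₗᵢ[ℝ] H) (f e : H) (α : ℝ) : Prop where
  act : IsoAction U
  e_norm : ‖e‖ = 1
  e_fix : ∀ n, 0 < n → U n e = e
  nonneg : ∀ m n, 0 < m → 0 < n → 0 ≤ ⟪U m f, U n f⟫
  f_norm : ‖f‖ ^ 2 = α
  f_e : ⟪f, e⟫ = α
  pos : 0 < α

variable {e : H} {α : ℝ}

/-- the function `F` -/
noncomputable def F (U : ℕ → H →ₗᵢ[ℝ] H) (w : H) (n : ℕ) : ℝ := ⟪U n w, U (n + 1) w⟫

omit [CompleteSpace H] in
lemma inner_hull_nonneg (hD : Data U f e α) {k : ℕ} (hk : 0 < k) {m : ℕ} (hm : 0 < m) {v : H}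
    (hv : v ∈ hull U f) : 0 ≤ ⟪U k f, U m v⟫ := by
  have hsub : hull U f ⊆ {v | 0 ≤ ⟪U k f, U m v⟫} := by
    apply hull_induction
    · exact isClosed_le continuous_const (continuous_const.inner (U m).continuous)
    · intro x hx y hy a b ha hb _
      show 0 ≤ ⟪U k f, U m (a • x + b • y)⟫
      rw [map_add, map_smul, map_smul, inner_add_right, inner_smul_right, inner_smul_right]
      have h1 : 0 ≤ ⟪U k f, U m x⟫ := hx
      have h2 : 0 ≤ ⟪U k f, U m y⟫ := hy
      positivity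
    · intro q hq
      show 0 ≤ ⟪U k f, U m (U (q ^ 2) f)⟫
      rw [← hD.act.mul _ _ hm (by positivity)]
      exact hD.nonneg _ _ hk (by positivity)
  exact hsub hv

omit [CompleteSpace H] in
lemma inner_f_eq (hD : Data U f e α) {w : H} (hfix : ∀ q : ℕ, 0 < q → U (q ^ 2) w = w)
    {k : ℕ} (hk : 0 < k) {v : H} (hv : v ∈ hull U f) : ⟪U k v, w⟫ = ⟪U k f, w⟫ := by
  have hsub : hull U f ⊆ {v | ⟪U k v, w⟫ = ⟪U k f, w⟫} := by
    apply hull_induction
    · exact isClosed_eq ((U k).continuous.inner continuous_const) continuous_const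
    · intro x hx y hy a b _ _ hab
      show ⟪U k (a • x + b • y), w⟫ = ⟪U k f, w⟫
      have h1 : ⟪U k x, w⟫ = ⟪U k f, w⟫ := hx
      have h2 : ⟪U k y, w⟫ = ⟪U k f, w⟫ := hy
      rw [map_add, map_smul, map_smul, inner_add_left, real_inner_smul_left, real_inner_smul_left,
        h1, h2, ← add_mul, hab, one_mul]
    · intro q hq
      show ⟪U k (U (q ^ 2) f), w⟫ = ⟪U k f, w⟫
      have hq2 : 0 < q ^ 2 := by positivity
      rw [← hD.act.mul _ _ hk hq2, mul_comm, hD.act.mul _ _ hq2 hk]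
      conv_lhs => rw [← hfix q hq]
      exact (U (q ^ 2)).inner_map_map _ _
  exact hsub hv

omit [CompleteSpace H] in
lemma inner_prod (hD : Data U f e α) {w : H} (hfix : ∀ q : ℕ, 0 < q → U (q ^ 2) w = w)
    (hw : w ∈ hull U f) {n : ℕ} (hn : 0 < n) : ⟪U (n ^ 2 + n) f, w⟫ = F U w n := by
  have h0 : n ^ 2 + n = n * (n + 1) := by ring
  rw [← inner_f_eq hD hfix (by positivity) hw, h0, hD.act.mul _ _ hn (by omega)]
  rw [← (U n).inner_map_map, ← hD.act.mul _ _ hn hn, ← pow_two,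
    ← hD.act.mul _ _ (by positivity) (by omega), mul_comm, hD.act.mul _ _ (by omega) (by positivity),
    hfix n hn]
  unfold F
  exact real_inner_comm _ _

omit [CompleteSpace H] in
lemma F_nonneg (hD : Data U f e α) {w : H} (hfix : ∀ q : ℕ, 0 < q → U (q ^ 2) w = w)
    (hw : w ∈ hull U f) {n : ℕ} (hn : 0 < n) : 0 ≤ F U w n := by
  rw [← inner_prod hD hfix hw hn]
  have := inner_hull_nonneg hD (k := n ^ 2 + n) (by positivity) one_pos hw
  rwa [hD.act.one] at this

omit [CompleteSpace H] in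
lemma inner_e (hD : Data U f e α) {w : H} (hw : w ∈ hull U f) {k : ℕ} (hk : 0 < k) :
    ⟪U k w, e⟫ = α := by
  have hsub : hull U f ⊆ {v | ⟪v, e⟫ = α} := by
    apply hull_induction
    · exact isClosed_eq (continuous_id.inner continuous_const) continuous_const
    · intro x hx y hy a b _ _ hab
      show ⟪a • x + b • y, e⟫ = α
      have h1 : ⟪x, e⟫ = α := hx
      have h2 : ⟪y, e⟫ = α := hy
      rw [inner_add_left, real_inner_smul_left, real_inner_smul_left, h1, h2, ← add_mul, hab,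
        one_mul]
    · intro q hq
      show ⟪U (q ^ 2) f, e⟫ = α
      conv_lhs => rw [← hD.e_fix (q ^ 2) (by positivity)]
      rw [(U (q ^ 2)).inner_map_map, hD.f_e]
  conv_lhs => rw [← hD.e_fix k hk]
  rw [(U k).inner_map_map]
  exact hsub hw

omit [CompleteSpace H] in
/-- Cauchy-Schwarz for a finite family of translates of `w`. -/
lemma pairs_lower (hD : Data U f e α) {w : H} (hw : w ∈ hull U f) (hwn : ‖w‖ ≤ ‖f‖)
    (s : Finset ℕ) (c : ℕ → ℕ) (hc : ∀ x ∈ s, 0 < c x) :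
    (s.card : ℝ) ^ 2 * α ^ 2 - s.card * α ≤
      ∑ x ∈ s, ∑ y ∈ s.filter (fun y => y ≠ x), ⟪U (c x) w, U (c y) w⟫ := by
  have h1 : ⟪∑ x ∈ s, U (c x) w, e⟫ = s.card * α := by
    rw [sum_inner, Finset.sum_congr rfl fun x hx => inner_e hD hw (hc x hx)]
    simp
  have h2 : (s.card * α) ^ 2 ≤ ‖∑ x ∈ s, U (c x) w‖ ^ 2 := by
    have := abs_real_inner_le_norm (∑ x ∈ s, U (c x) w) e
    rw [h1, hD.e_norm, mul_one] at this
    calc (s.card * α) ^ 2 = |s.card * α| ^ 2 := (sq_abs _).symm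
      _ ≤ _ := by gcongr
  have h3 : ‖∑ x ∈ s, U (c x) w‖ ^ 2 = ∑ x ∈ s, ∑ y ∈ s, ⟪U (c x) w, U (c y) w⟫ := by
    rw [← real_inner_self_eq_norm_sq, sum_inner]
    exact Finset.sum_congr rfl fun x _ => inner_sum _ _ _
  have h4 : ∀ x ∈ s, ∑ y ∈ s, ⟪U (c x) w, U (c y) w⟫ ≤
      α + ∑ y ∈ s.filter (fun y => y ≠ x), ⟪U (c x) w, U (c y) w⟫ := by
    intro x hx
    rw [Finset.filter_ne', ← Finset.add_sum_erase s _ hx]
    gcongr
    rw [real_inner_self_eq_norm_sq, (U (c x)).norm_map, ← hD.f_norm]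
    gcongr
  have h5 := Finset.sum_le_sum h4
  rw [Finset.sum_add_distrib, Finset.sum_const, nsmul_eq_mul] at h5
  rw [h3] at h2
  nlinarith

omit [CompleteSpace H] in
/-- pairs with a common difference -/
lemma inner_pair (hD : Data U f e α) {w : H} {a d : ℕ} (hd : 0 < d) (ha : 0 < a) (hda : d ∣ a) :
    ⟪U a w, U (a + d) w⟫ = F U w (a / d) := by
  obtain ⟨n, rfl⟩ := hda
  have hn : 0 < n := by
    rcases Nat.eq_zero_or_pos n with h | h
    · subst h; simp at ha
    · exact h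
  have h1 : d * n + d = d * (n + 1) := by ring
  rw [Nat.mul_div_cancel_left _ hd, h1, hD.act.mul _ _ hd hn, hD.act.mul _ _ hd (by omega),
    (U d).inner_map_map]
  rfl

end Q68.MR
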