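import Mathlib
import Pool.Agent.Q68.MR.Hilb

/-! The lower bound for the averages. -/

open Filter Topology Finset
open scoped RealInnerProductSpace

namespace Q68.MR

variable {H : Type*} [NormedAddCommGroup H] [InnerProductSpace ℝ H]
variable {U : ℕ → H →ₗᵢ[ℝ] H} {f e : H} {α : ℝ}

lemma sum_ne_eq_two {s : Finset ℕ} {G : ℕ → ℕ → ℝ} (hG : ∀ x y, G x y = G y x) :
    ∑ x ∈ s, ∑ y ∈ s.filter (fun y => y ≠ x), G x y =
      2 * ∑ p ∈ (s ×ˢ s).filter (fun p => p.1 < p.2), G p.1 p.2 := by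
  have h1 : ∑ x ∈ s, ∑ y ∈ s.filter (fun y => y ≠ x), G x y =
      ∑ p ∈ (s ×ˢ s).filter (fun p => p.2 ≠ p.1), G p.1 p.2 := by
    rw [Finset.sum_filter, Finset.sum_product]
    refine Finset.sum_congr rfl fun x _ => ?_
    rw [Finset.sum_filter]
  have h2 : (s ×ˢ s).filter (fun p => p.2 ≠ p.1) =
      (s ×ˢ s).filter (fun p => p.1 < p.2) ∪ (s ×ˢ s).filter (fun p => p.2 < p.1) := by
    ext p
    simp only [mem_filter, mem_union]
    constructor
    · rintro ⟨h, h'⟩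
      rcases lt_or_gt_of_ne h' with h'' | h''
      · exact Or.inr ⟨h, h''⟩
      · exact Or.inl ⟨h, h''⟩
    · rintro (⟨h, h'⟩ | ⟨h, h'⟩)
      · exact ⟨h, h'.ne'⟩
      · exact ⟨h, h'.ne⟩
  have h3 : Disjoint ((s ×ˢ s).filter (fun p => p.1 < p.2))
      ((s ×ˢ s).filter (fun p => p.2 < p.1)) := by
    rw [Finset.disjoint_left]
    intro p hp hp'
    rw [mem_filter] at hp hp'
    omega
  have h4 : ∑ p ∈ (s ×ˢ s).filter (fun p => p.2 < p.1), G p.1 p.2 =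
      ∑ p ∈ (s ×ˢ s).filter (fun p => p.1 < p.2), G p.1 p.2 := by
    refine Finset.sum_nbij' (fun p => (p.2, p.1)) (fun p => (p.2, p.1)) ?_ ?_ ?_ ?_ ?_
    · intro p hp
      simp only [mem_filter, mem_product] at hp ⊢
      tauto
    · intro p hp
      simp only [mem_filter, mem_product] at hp ⊢
      tauto
    · intro p _; rfl
    · intro p _; rfl
    · intro p _; exact hG _ _
  rw [h1, h2, Finset.sum_union h3, h4]
  ring

/-- Lower bound for the sums of `F`. -/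
theorem sum_F_lower (hD : Data U f e α) {w : H} (hfix : ∀ q : ℕ, 0 < q → U (q ^ 2) w = w)
    (hw : w ∈ hull U f) (hwn : ‖w‖ ≤ ‖f‖) :
    ∃ c : ℝ, 0 < c ∧ ∃ N₀ : ℕ, ∀ N, N₀ ≤ N → c * N ≤ ∑ n ∈ Icc 1 N, F U w n := by
  have hα := hD.pos
  obtain ⟨r, hr⟩ := exists_nat_gt (2 / α)
  have hr0 : (0 : ℝ) < r := lt_trans (by positivity) hr
  have hrα : 2 < r * α := by
    rw [div_lt_iff₀ hα] at hr
    exact hr
  obtain ⟨s, hs1, hs2, hs3⟩ := exists_diff_dvd r
  obtain ⟨M, hM⟩ : ∃ M, ∀ x ∈ s, x ≤ M := ⟨s.sup id, fun x hx => Finset.le_sup (f := id) hx⟩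
  set L := M.factorial with hL
  have hL0 : 0 < L := Nat.factorial_pos M
  have hL0' : (0 : ℝ) < L := by exact_mod_cast hL0
  have hxL : ∀ x ∈ s, x ≤ L := fun x hx => (hM x hx).trans (Nat.self_le_factorial M)
  have hdL : ∀ x ∈ s, ∀ y ∈ s, x < y → (y - x) ∣ L := fun x _ y hy hxy =>
    Nat.dvd_factorial (by omega) ((Nat.sub_le _ _).trans (hM y hy))
  set P := (s ×ˢ s).filter (fun p => p.1 < p.2) with hP
  have hPc : (P.card : ℝ) ≤ r ^ 2 := by
    have h1 : P.card ≤ s.card * s.card := by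
      rw [← card_product]; exact card_filter_le _ _
    rw [hs1] at h1
    calc (P.card : ℝ) ≤ ((r * r : ℕ) : ℝ) := by exact_mod_cast h1
      _ = r ^ 2 := by push_cast; ring
  -- for each `t`
  have hstep : ∀ t : ℕ, (r : ℝ) ^ 2 * α ^ 2 / 4 ≤ ∑ p ∈ P, F U w ((L * t + p.1) / (p.2 - p.1)) := by
    intro t
    have h1 := pairs_lower hD hw hwn s (fun x => L * t + x) (fun x hx => by
      have := hs2 x hx
      omega)
    have h2 := sum_ne_eq_two (s := s) (G := fun x y => ⟪U (L * t + x) w, U (L * t + y) w⟫)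
      (fun x y => real_inner_comm _ _)
    rw [h2] at h1
    have h3 : ∑ p ∈ P, ⟪U (L * t + p.1) w, U (L * t + p.2) w⟫ =
        ∑ p ∈ P, F U w ((L * t + p.1) / (p.2 - p.1)) := by
      refine Finset.sum_congr rfl fun p hp => ?_
      rw [hP, mem_filter, mem_product] at hp
      obtain ⟨⟨hp1, hp2⟩, hp3⟩ := hp
      have e1 : L * t + p.2 = (L * t + p.1) + (p.2 - p.1) := by omega
      rw [e1]
      apply inner_pair hD (by omega)
      · have := hs2 _ hp1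
        omega
      · exact Nat.dvd_add ((hdL _ hp1 _ hp2 hp3).mul_right t) (hs3 _ hp1 _ hp2 hp3)
    rw [h3, hs1] at h1
    nlinarith
  -- sum over `t`
  have hsum : ∀ Y : ℕ, Y * ((r : ℝ) ^ 2 * α ^ 2 / 4) ≤
      r ^ 2 * ∑ n ∈ Icc 1 (L * (Y + 1)), F U w n := by
    intro Y
    have h1 : Y * ((r : ℝ) ^ 2 * α ^ 2 / 4) ≤
        ∑ t ∈ Icc 1 Y, ∑ p ∈ P, F U w ((L * t + p.1) / (p.2 - p.1)) := by
      have := Finset.sum_le_sum (s := Icc 1 Y) fun t _ => hstep t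
      simpa using this
    rw [Finset.sum_comm] at h1
    have hnn : 0 ≤ ∑ n ∈ Icc 1 (L * (Y + 1)), F U w n :=
      Finset.sum_nonneg fun n hn => F_nonneg hD hfix hw (mem_Icc.1 hn).1
    have h2 : ∀ p ∈ P, ∑ t ∈ Icc 1 Y, F U w ((L * t + p.1) / (p.2 - p.1)) ≤
        ∑ n ∈ Icc 1 (L * (Y + 1)), F U w n := by
      intro p hp
      rw [hP, mem_filter, mem_product] at hp
      obtain ⟨⟨hp1, hp2⟩, hp3⟩ := hp
      have hd : 0 < p.2 - p.1 := by omega
      have hdvd : ∀ t, (p.2 - p.1) ∣ L * t + p.1 := fun t =>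
        Nat.dvd_add ((hdL _ hp1 _ hp2 hp3).mul_right t) (hs3 _ hp1 _ hp2 hp3)
      have hinj : Set.InjOn (fun t => (L * t + p.1) / (p.2 - p.1)) (Icc 1 Y : Finset ℕ) := by
        intro a _ b _ hab
        have h3 : (L * a + p.1) / (p.2 - p.1) = (L * b + p.1) / (p.2 - p.1) := hab
        have h4 : L * a + p.1 = L * b + p.1 := by
          rw [← Nat.div_mul_cancel (hdvd a), ← Nat.div_mul_cancel (hdvd b), h3]
        exact Nat.eq_of_mul_eq_mul_left hL0 (by omega)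
      rw [← Finset.sum_image (f := F U w) hinj]
      apply Finset.sum_le_sum_of_subset_of_nonneg
      · intro n hn
        obtain ⟨t, ht, rfl⟩ := mem_image.1 hn
        rw [mem_Icc] at ht ⊢
        have h5 := hs2 _ hp1
        have h6 := hxL _ hp1
        constructor
        · apply Nat.div_pos _ hd
          exact Nat.le_of_dvd (by omega) (hdvd t)
        · refine (Nat.div_le_self _ _).trans ?_
          have : L * t ≤ L * Y := Nat.mul_le_mul_left _ ht.2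
          rw [mul_add]
          omega
      · intro n hn _
        exact F_nonneg hD hfix hw (mem_Icc.1 hn).1
    have h3 := Finset.sum_le_sum h2
    rw [Finset.sum_const, nsmul_eq_mul] at h3
    calc Y * ((r : ℝ) ^ 2 * α ^ 2 / 4) ≤ _ := h1
      _ ≤ _ := h3
      _ ≤ _ := mul_le_mul_of_nonneg_right hPc hnn
  have hsum' : ∀ Y : ℕ, Y * (α ^ 2 / 4) ≤ ∑ n ∈ Icc 1 (L * (Y + 1)), F U w n := by
    intro Y
    have := hsum Y
    have h2 : (r : ℝ) ^ 2 * (Y * (α ^ 2 / 4)) ≤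
        r ^ 2 * ∑ n ∈ Icc 1 (L * (Y + 1)), F U w n := by linarith
    exact le_of_mul_le_mul_left h2 (by positivity)
  refine ⟨α ^ 2 / (8 * L), by positivity, 4 * L, fun N hN => ?_⟩
  have hdiv : 4 ≤ N / L := by
    rw [Nat.le_div_iff_mul_le hL0]
    exact hN
  have h1 := hsum' (N / L - 1)
  have e1 : N / L - 1 + 1 = N / L := by omega
  rw [e1] at h1
  have h2 : ∑ n ∈ Icc 1 (L * (N / L)), F U w n ≤ ∑ n ∈ Icc 1 N, F U w n := by
    apply Finset.sum_le_sum_of_subset_of_nonneg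
    · exact Icc_subset_Icc le_rfl (Nat.mul_div_le N L)
    · intro n hn _
      exact F_nonneg hD hfix hw (mem_Icc.1 hn).1
  refine le_trans ?_ (h1.trans h2)
  have h3 : (N : ℝ) < L * ((N / L : ℕ) + 1) := by
    exact_mod_cast Nat.lt_mul_div_succ N hL0
  have h4 : ((N / L - 1 : ℕ) : ℝ) = ((N / L : ℕ) : ℝ) - 1 := by
    rw [Nat.cast_sub (by omega)]
    simp
  have h5 : (4 : ℝ) ≤ ((N / L : ℕ) : ℝ) := by exact_mod_cast hdiv
  rw [h4, div_mul_eq_mul_div, div_le_iff₀ (by positivity)]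
  nlinarith [sq_nonneg α, mul_pos hL0' (by positivity : 0 < α ^ 2)]

/-- The property used for the reduction. -/
def Red (U : ℕ → H →ₗᵢ[ℝ] H) (f : H) (v : H) : Prop :=
  (∀ k m : ℕ, 0 < k → 0 < m → 0 ≤ ⟪U k f, U m v⟫) ∧
  ∃ Q : ℕ, 0 < Q ∧ ∀ N k : ℕ, 0 < k →
    ∑ m ∈ Icc 1 (N / Q), ⟪U k f, U (m ^ 2) v⟫ ≤ ∑ m ∈ Icc 1 N, ⟪U k f, U (m ^ 2) f⟫

lemma red_convex : Convex ℝ {v | Red U f v} := by
  rintro x ⟨hx1, Q1, hQ1, hx2⟩ y ⟨hy1, Q2, hQ2, hy2⟩ a b ha hb hab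
  refine ⟨fun k m hk hm => ?_, max Q1 Q2, by positivity, fun N k hk => ?_⟩
  · rw [map_add, map_smul, map_smul, inner_add_right, inner_smul_right, inner_smul_right]
    have h1 := hx1 k m hk hm
    have h2 := hy1 k m hk hm
    positivity
  · have e1 : ∑ m ∈ Icc 1 (N / max Q1 Q2), ⟪U k f, U (m ^ 2) (a • x + b • y)⟫ =
        a * ∑ m ∈ Icc 1 (N / max Q1 Q2), ⟪U k f, U (m ^ 2) x⟫ +
        b * ∑ m ∈ Icc 1 (N / max Q1 Q2), ⟪U k f, U (m ^ 2) y⟫ := by
      rw [Finset.mul_sum, Finset.mul_sum, ← Finset.sum_add_distrib]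
      refine Finset.sum_congr rfl fun m _ => ?_
      rw [map_add, map_smul, map_smul, inner_add_right, inner_smul_right, inner_smul_right]
    have h1 : ∑ m ∈ Icc 1 (N / max Q1 Q2), ⟪U k f, U (m ^ 2) x⟫ ≤
        ∑ m ∈ Icc 1 N, ⟪U k f, U (m ^ 2) f⟫ := by
      refine le_trans ?_ (hx2 N k hk)
      apply Finset.sum_le_sum_of_subset_of_nonneg
      · exact Icc_subset_Icc le_rfl (Nat.div_le_div_left (le_max_left _ _) hQ1)
      · intro m hm _
        exact hx1 k _ hk (by have := (mem_Icc.1 hm).1; positivity)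
    have h2 : ∑ m ∈ Icc 1 (N / max Q1 Q2), ⟪U k f, U (m ^ 2) y⟫ ≤
        ∑ m ∈ Icc 1 N, ⟪U k f, U (m ^ 2) f⟫ := by
      refine le_trans ?_ (hy2 N k hk)
      apply Finset.sum_le_sum_of_subset_of_nonneg
      · exact Icc_subset_Icc le_rfl (Nat.div_le_div_left (le_max_right _ _) hQ2)
      · intro m hm _
        exact hy1 k _ hk (by have := (mem_Icc.1 hm).1; positivity)
    rw [e1]
    have h3 := mul_le_mul_of_nonneg_left h1 ha
    have h4 := mul_le_mul_of_nonneg_left h2 hb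
    have h5 : a * ∑ m ∈ Icc 1 N, ⟪U k f, U (m ^ 2) f⟫ + b * ∑ m ∈ Icc 1 N, ⟪U k f, U (m ^ 2) f⟫ =
        ∑ m ∈ Icc 1 N, ⟪U k f, U (m ^ 2) f⟫ := by rw [← add_mul, hab, one_mul]
    linarith

lemma red_gen (hD : Data U f e α) {q : ℕ} (hq : 0 < q) : Red U f (U (q ^ 2) f) := by
  have hmul : ∀ m : ℕ, 0 < m → U m (U (q ^ 2) f) = U (m * q ^ 2) f := fun m hm =>
    (hD.act.mul _ _ hm (by positivity) f).symm
  refine ⟨fun k m hk hm => ?_, q, hq, fun N k hk => ?_⟩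
  · rw [hmul m hm]
    exact hD.nonneg _ _ hk (by positivity)
  · have e1 : ∑ m ∈ Icc 1 (N / q), ⟪U k f, U (m ^ 2) (U (q ^ 2) f)⟫ =
        ∑ m ∈ (Icc 1 (N / q)).image (fun m => m * q), ⟪U k f, U (m ^ 2) f⟫ := by
      rw [Finset.sum_image]
      · refine Finset.sum_congr rfl fun m hm => ?_
        have := (mem_Icc.1 hm).1
        rw [hmul _ (by positivity), mul_pow]
      · intro a _ b _ hab
        exact Nat.eq_of_mul_eq_mul_right hq hab
    rw [e1]
    apply Finset.sum_le_sum_of_subset_of_nonneg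
    · intro n hn
      obtain ⟨m, hm, rfl⟩ := mem_image.1 hn
      rw [mem_Icc] at hm ⊢
      constructor
      · exact Nat.mul_pos hm.1 hq
      · exact (Nat.mul_le_mul_right q hm.2).trans (Nat.div_mul_le_self N q)
    · intro m hm _
      have := (mem_Icc.1 hm).1
      exact hD.nonneg _ _ hk (by positivity)

/-- The abstract theorem. -/
theorem abstract_main [CompleteSpace H] (hD : Data U f e α) : ∃ c : ℝ, 0 < c ∧
    ∀ᶠ N : ℕ in atTop, c ≤ (∑ n ∈ Icc 1 N, ∑ m ∈ Icc 1 N, ⟪U (n ^ 2 + n) f, U (m ^ 2) f⟫) /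
      (N : ℝ) ^ 2 := by
  obtain ⟨w, hw, hfix, hwn⟩ := exists_fixed (f := f) hD.act
  obtain ⟨c, hc, N₀, hN₀⟩ := sum_F_lower hD hfix hw hwn
  have hα := hD.pos
  have hf0 : 0 < ‖f‖ := by
    have h1 := hD.f_norm
    rcases (norm_nonneg f).lt_or_eq with h | h
    · exact h
    · rw [← h] at h1
      norm_num at h1
      linarith
  -- an approximation of `w`
  obtain ⟨v, hv, hvw⟩ := Metric.mem_closure_iff.1 hw (c / (2 * ‖f‖)) (by positivity)
  have hred : Red U f v := by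
    have : convexHull ℝ {v | ∃ q : ℕ, 0 < q ∧ v = U (q ^ 2) f} ⊆ {v | Red U f v} := by
      apply convexHull_min _ red_convex
      rintro _ ⟨q, hq, rfl⟩
      exact red_gen hD hq
    exact this hv
  obtain ⟨-, Q, hQ, hred2⟩ := hred
  rw [dist_eq_norm] at hvw
  have hQ' : (0 : ℝ) < Q := by exact_mod_cast hQ
  refine ⟨c / (4 * Q), by positivity, ?_⟩
  filter_upwards [eventually_ge_atTop N₀, eventually_ge_atTop (2 * Q)] with N hN1 hN2
  have hN0 : 0 < N := by omega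
  have hN0' : (0 : ℝ) < N := by exact_mod_cast hN0
  -- lower bound for the inner sum
  have hinner : ∀ n ∈ Icc 1 N, ((N / Q : ℕ) : ℝ) * (F U w n - c / 2) ≤
      ∑ m ∈ Icc 1 N, ⟪U (n ^ 2 + n) f, U (m ^ 2) f⟫ := by
    intro n hn
    have hn1 := (mem_Icc.1 hn).1
    refine le_trans ?_ (hred2 N (n ^ 2 + n) (by positivity))
    have h1 : ∀ m ∈ Icc 1 (N / Q), F U w n - c / 2 ≤ ⟪U (n ^ 2 + n) f, U (m ^ 2) v⟫ := by
      intro m hm
      have hm1 := (mem_Icc.1 hm).1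
      have e1 : ⟪U (n ^ 2 + n) f, U (m ^ 2) v⟫ =
          ⟪U (n ^ 2 + n) f, w⟫ - ⟪U (n ^ 2 + n) f, U (m ^ 2) (w - v)⟫ := by
        rw [map_sub, inner_sub_right, hfix m hm1]
        ring
      rw [e1, inner_prod hD hfix hw hn1]
      have h2 := real_inner_le_norm (U (n ^ 2 + n) f) (U (m ^ 2) (w - v))
      rw [(U (n ^ 2 + n)).norm_map, (U (m ^ 2)).norm_map] at h2
      have h3 : ‖f‖ * ‖w - v‖ ≤ ‖f‖ * (c / (2 * ‖f‖)) := by gcongr
      have h4 : ‖f‖ * (c / (2 * ‖f‖)) = c / 2 := by field_simp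
      linarith
    have h2 := Finset.card_nsmul_le_sum _ _ _ h1
    rw [Nat.card_Icc, nsmul_eq_mul, Nat.add_sub_cancel] at h2
    exact h2
  have hsum := Finset.sum_le_sum hinner
  rw [← Finset.mul_sum, Finset.sum_sub_distrib, Finset.sum_const, Nat.card_Icc,
    Nat.add_sub_cancel, nsmul_eq_mul] at hsum
  have h1 := hN₀ N hN1
  have h2 : (N : ℝ) / (2 * Q) ≤ ((N / Q : ℕ) : ℝ) := by
    have h3 : (N : ℝ) < Q * ((N / Q : ℕ) + 1) := by exact_mod_cast Nat.lt_mul_div_succ N hQ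
    have h4 : (1 : ℝ) ≤ ((N / Q : ℕ) : ℝ) := by
      have : 1 ≤ N / Q := by
        rw [Nat.le_div_iff_mul_le hQ]
        omega
      exact_mod_cast this
    rw [div_le_iff₀ (by positivity)]
    nlinarith
  rw [le_div_iff₀ (by positivity)]
  refine le_trans ?_ hsum
  calc c / (4 * Q) * (N : ℝ) ^ 2 = (N / (2 * Q)) * (c * N / 2) := by field_simp; ring
    _ ≤ ((N / Q : ℕ) : ℝ) * (c * N / 2) := by gcongr
    _ ≤ ((N / Q : ℕ) : ℝ) * (∑ n ∈ Icc 1 N, F U w n - N * (c / 2)) := by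
        apply mul_le_mul_of_nonneg_left _ (Nat.cast_nonneg _)
        linarith

end Q68.MR
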