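import Mathlib
import Pool.Agent.Q68.MR.Lower

/-! Multiplicative measure preserving systems. -/

open MeasureTheory Filter Topology Finset
open scoped RealInnerProductSpace ENNReal

namespace Q68.MR

/-- A multiplicative measure preserving system: an action `T` of the semigroup of the positive
integers under multiplication by measure preserving maps of `X` (the value `T 0` is irrelevant). -/
structure IsMultiplicativeSystem {X : Type*} [MeasurableSpace X] (μ : Measure X) (T : ℕ → X → X) :
    Prop where
  measurePreserving : ∀ n, 0 < n → MeasurePreserving (T n) μ μ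
  one : T 1 = id
  mul : ∀ n m, 0 < n → 0 < m → T (n * m) = T n ∘ T m

variable {X : Type*} [MeasurableSpace X] {μ : Measure X} [IsProbabilityMeasure μ] {T : ℕ → X → X}

open Classical in
/-- the Koopman isometries -/
noncomputable def koop (hT : IsMultiplicativeSystem μ T) (n : ℕ) : Lp ℝ 2 μ →ₗᵢ[ℝ] Lp ℝ 2 μ :=
  if h : 0 < n then Lp.compMeasurePreservingₗᵢ ℝ (T n) (hT.measurePreserving n h)
  else LinearIsometry.id

lemma koop_indicator (hT : IsMultiplicativeSystem μ T) {n : ℕ} (hn : 0 < n) {A : Set X}
    (hA : MeasurableSet A) : koop hT n (indicatorConstLp 2 hA (measure_ne_top μ A) (1 : ℝ)) =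
      indicatorConstLp 2 ((hT.measurePreserving n hn).measurable hA)
        (measure_ne_top μ _) (1 : ℝ) := by
  unfold koop
  rw [dif_pos hn]
  rfl

lemma comp_congr {f g : X → X} (h : f = g) (hf : MeasurePreserving f μ μ)
    (hg : MeasurePreserving g μ μ) (v : Lp ℝ 2 μ) :
    Lp.compMeasurePreserving f hf v = Lp.compMeasurePreserving g hg v := by
  subst h
  rfl

lemma koop_act (hT : IsMultiplicativeSystem μ T) : IsoAction (koop hT) := by
  refine ⟨fun v => ?_, fun m n hm hn v => ?_⟩
  · unfold koop
    rw [dif_pos one_pos]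
    show Lp.compMeasurePreserving (T 1) _ v = v
    rw [comp_congr hT.one _ (MeasurePreserving.id μ)]
    exact Lp.compMeasurePreserving_id_apply v
  · unfold koop
    rw [dif_pos hm, dif_pos hn, dif_pos (Nat.mul_pos hm hn)]
    show Lp.compMeasurePreserving (T (m * n)) _ v =
      Lp.compMeasurePreserving (T m) _ (Lp.compMeasurePreserving (T n) _ v)
    rw [← Lp.compMeasurePreserving_comp_apply]
    apply comp_congr
    rw [mul_comm, hT.mul n m hn hm]

lemma koop_data (hT : IsMultiplicativeSystem μ T) {A : Set X} (hA : MeasurableSet A)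
    (h0 : μ A ≠ 0) : Data (koop hT) (indicatorConstLp 2 hA (measure_ne_top μ A) (1 : ℝ))
      (indicatorConstLp 2 MeasurableSet.univ (measure_ne_top μ _) (1 : ℝ)) (μ.real A) where
  act := koop_act hT
  e_norm := by
    have h1 : ‖indicatorConstLp 2 MeasurableSet.univ (measure_ne_top μ _) (1 : ℝ)‖ ^ 2 = 1 := by
      rw [← real_inner_self_eq_norm_sq,
        L2.real_inner_indicatorConstLp_one_indicatorConstLp_one]
      simp
    have h2 := norm_nonneg (indicatorConstLp 2 MeasurableSet.univ (measure_ne_top μ _) (1 : ℝ))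
    nlinarith
  e_fix := by
    intro n hn
    rw [koop_indicator hT hn]
    rfl
  nonneg := by
    intro m n hm hn
    rw [koop_indicator hT hm, koop_indicator hT hn,
      L2.real_inner_indicatorConstLp_one_indicatorConstLp_one]
    exact measureReal_nonneg
  f_norm := by
    rw [← real_inner_self_eq_norm_sq, L2.real_inner_indicatorConstLp_one_indicatorConstLp_one,
      Set.inter_self]
  f_e := by
    rw [L2.real_inner_indicatorConstLp_one_indicatorConstLp_one, Set.inter_univ]
  pos := ENNReal.toReal_pos h0 (measure_ne_top _ _)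

/-- Averaged multiplicative recurrence for the pairs `(n² + n, m²)`. -/
theorem recurrence (hT : IsMultiplicativeSystem μ T) {A : Set X} (hA : MeasurableSet A)
    (h0 : 0 < μ A) : ∃ c : ℝ, 0 < c ∧ ∀ᶠ N : ℕ in atTop,
      c ≤ (∑ n ∈ Icc 1 N, ∑ m ∈ Icc 1 N,
        μ.real (T (n ^ 2 + n) ⁻¹' A ∩ T (m ^ 2) ⁻¹' A)) / (N : ℝ) ^ 2 := by
  obtain ⟨c, hc, h⟩ := abstract_main (koop_data hT hA h0.ne')
  refine ⟨c, hc, h.mono fun N hN => ?_⟩
  refine hN.trans (le_of_eq ?_)
  congr 1
  refine Finset.sum_congr rfl fun n hn => Finset.sum_congr rfl fun m hm => ?_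
  have hn1 := (mem_Icc.1 hn).1
  have hm1 := (mem_Icc.1 hm).1
  rw [koop_indicator hT (by positivity), koop_indicator hT (by positivity),
    L2.real_inner_indicatorConstLp_one_indicatorConstLp_one]

end Q68.MR
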